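import Pool.Agent.N694.OB.Blk

/-!
The finite form of the theorem of van der Waerden, and exact patterns of primes in the two-sided orbits of
affine maps.
-/

set_option autoImplicit false

namespace Pool.Agent.Helper30K1.OT

open Finset Filter Topology
open Pool.Agent.N694.OB

/-- van der Waerden's theorem, finite form -/
theorem vdw (κ : Type) [Finite κ] (l : ℕ) : ∃ W : ℕ, 1 ≤ W ∧ ∀ χ : ℕ → κ, ∃ j₀ e : ℕ, j₀ < W ∧
    1 ≤ e ∧ e ≤ W ∧ ∀ i < l, j₀ + i * e < W ∧ χ (j₀ + i * e) = χ j₀ := by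
  classical
  obtain ⟨ι, hι, h⟩ := Combinatorics.Line.exists_mono_in_high_dimension (Fin (l + 1)) κ
  refine ⟨Fintype.card ι * (l + 1) + 1, by omega, fun χ => ?_⟩
  obtain ⟨L, c, hc⟩ := h (fun v : ι → Fin (l + 1) => χ (∑ i, (v i : ℕ)))
  obtain ⟨A, hA⟩ : ∃ A : Finset ι, A = univ.filter (fun i => L.idxFun i = none) := ⟨_, rfl⟩
  obtain ⟨j₀, hj₀⟩ : ∃ j₀ : ℕ, j₀ = ∑ i, ((L 0 i : Fin (l + 1)) : ℕ) := ⟨_, rfl⟩
  have key : ∀ x : Fin (l + 1), ∑ i, ((L x i : Fin (l + 1)) : ℕ) = j₀ + x * A.card := by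
    intro x
    have h1 : ∀ i, ((L x i : Fin (l + 1)) : ℕ) = ((L 0 i : Fin (l + 1)) : ℕ) +
        (if L.idxFun i = none then (x : ℕ) else 0) := by
      intro i
      rcases hi : L.idxFun i with _ | y
      · rw [L.apply_none x i hi, L.apply_none 0 i hi, if_pos rfl]
        simp
      · rw [L.apply_some hi, L.apply_some hi]
        simp
    rw [sum_congr rfl (fun i _ => h1 i), sum_add_distrib, ← hj₀, ← sum_filter, ← hA, sum_const,
      smul_eq_mul, mul_comm]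
  have hbd : ∀ x : Fin (l + 1), ∑ i, ((L x i : Fin (l + 1)) : ℕ) < Fintype.card ι * (l + 1) + 1 := by
    intro x
    have h1 : ∑ i, ((L x i : Fin (l + 1)) : ℕ) ≤ ∑ _i : ι, (l + 1) :=
      sum_le_sum fun i _ => (L x i).2.le
    rw [sum_const, smul_eq_mul, card_univ] at h1
    omega
  have hA1 : 1 ≤ A.card := by
    obtain ⟨i, hi⟩ := L.proper
    rw [hA]
    exact card_pos.2 ⟨i, mem_filter.2 ⟨mem_univ _, hi⟩⟩
  have hA2 : A.card ≤ Fintype.card ι := card_le_univ A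
  have hmono : ∀ x : Fin (l + 1), χ (j₀ + x * A.card) = c := by
    intro x
    rw [← key x]
    exact hc x
  have h0 : χ j₀ = c := by
    have := hmono 0
    simpa using this
  refine ⟨j₀, A.card, ?_, hA1, ?_, fun i hi => ⟨?_, ?_⟩⟩
  · have h1 := hbd 0
    rw [key 0] at h1
    simpa using h1
  · have : Fintype.card ι ≤ Fintype.card ι * (l + 1) := Nat.le_mul_of_pos_right _ (by omega)
    omega
  · have h1 := hbd ⟨i, by omega⟩
    rw [key] at h1
    exact h1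
  · rw [h0]
    exact hmono ⟨i, by omega⟩

/-- the `u`-th iterate of `p` is a prime number; for `u < 0` this means that `p` is the `(-u)`-th iterate of
a prime number -/
def At (a : ℕ) (b : ℤ) (p : ℕ) (u : ℤ) : Prop :=
  (0 ≤ u ∧ (va a b u.toNat p).toNat.Prime) ∨ (u < 0 ∧ ∃ r : ℕ, r.Prime ∧ va a b (-u).toNat r = p)

theorem va_inj1 {a : ℕ} {b : ℤ} (ha : 1 ≤ a) (v : ℕ) {x y : ℤ} (h : va a b v x = va a b v y) :
    x = y := by
  unfold va at h
  have h1 : (a : ℤ) ^ v * x = (a : ℤ) ^ v * y := by linarith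
  have h2 : (a : ℤ) ^ v ≠ 0 := pow_ne_zero _ (by exact_mod_cast (by omega : a ≠ 0))
  exact mul_left_cancel₀ h2 h1

theorem fo_pos1 {a : ℕ} {b : ℤ} (ha : 1 ≤ a) (v : ℕ) : 0 < (fo a b v).1 := by
  unfold fo
  have : (0 : ℤ) < a := by exact_mod_cast (by omega : 0 < a)
  positivity

theorem at_iff {a : ℕ} {b : ℤ} (ha : 1 ≤ a) {μ : ℕ} {w : ℤ} {p : ℕ} (hp : (p : ℤ) = va a b μ w) {u : ℤ}
    (hu : 0 ≤ (μ : ℤ) + u) : At a b p u ↔ (va a b ((μ : ℤ) + u).toNat w).toNat.Prime := by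
  unfold At
  rcases le_or_gt 0 u with h | h
  · obtain ⟨v, rfl⟩ := Int.eq_ofNat_of_zero_le h
    have h1 : ((μ : ℤ) + v).toNat = μ + v := by omega
    have h0 : ((v : ℕ) : ℤ).toNat = v := Int.toNat_natCast v
    rw [h1, h0, va_comp, ← hp]
    constructor
    · rintro (⟨-, h2⟩ | ⟨h2, -⟩)
      · exact h2
      · omega
    · intro h2
      exact Or.inl ⟨h, h2⟩
  · obtain ⟨v, hv⟩ : ∃ v : ℕ, u = -(v : ℤ) := ⟨(-u).toNat, by omega⟩
    subst hv
    have hvμ : v ≤ μ := by omega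
    have h1 : ((μ : ℤ) + -(v : ℤ)).toNat = μ - v := by omega
    have h2 : (- -(v : ℤ)).toNat = v := by omega
    rw [h1, h2]
    have h3 : va a b μ w = va a b v (va a b (μ - v) w) := by
      rw [← va_comp]
      congr 1
      omega
    constructor
    · rintro (⟨h4, -⟩ | ⟨-, r, hr, h5⟩)
      · omega
      · rw [hp, h3] at h5
        have h6 := va_inj1 ha v h5
        rw [← h6, Int.toNat_natCast]
        exact hr
    · intro h4
      refine Or.inr ⟨h, (va a b (μ - v) w).toNat, h4, ?_⟩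
      have h5 : ((va a b (μ - v) w).toNat : ℤ) = va a b (μ - v) w := by
        apply Int.toNat_of_nonneg
        by_contra h6
        have h7 : (va a b (μ - v) w).toNat = 0 := by omega
        rw [h7] at h4
        exact Nat.not_prime_zero h4
      rw [h5, hp, h3]

open Classical in
/-- the number of the `p ≤ x` such that for all `n = p + j D`, `j < l`, the times `|u| ≤ R` at which the orbit
of `n` is prime are exactly those of `P` -/
noncomputable def ce (a : ℕ) (b : ℤ) (P : Finset ℤ) (l R D x : ℕ) : ℕ :=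
  ((Icc 1 x).filter (fun p : ℕ => ∀ j < l, ∀ u : ℤ, |u| ≤ R → (At a b (p + j * D) u ↔ u ∈ P))).card

/-- many narrow progressions of length `l` up to `x` -/
def Many (a : ℕ) (b : ℤ) (P : Finset ℤ) (l R C x : ℕ) : Prop :=
    ∃ D : ℕ, 1 ≤ D ∧ (D : ℝ) ≤ Real.log x ^ C ∧ (x : ℝ) / Real.log x ^ C ≤ (ce a b P l R D x : ℝ)

theorem ce_mono {a : ℕ} {b : ℤ} {P : Finset ℤ} {l l' R R' D x : ℕ} (hl : l' ≤ l) (hR : R' ≤ R) :
    ce a b P l R D x ≤ ce a b P l' R' D x := by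
  classical
  unfold ce
  apply card_le_card
  intro p hp
  obtain ⟨h1, h2⟩ := mem_filter.1 hp
  refine mem_filter.2 ⟨h1, fun j hj u hu => h2 j (by omega) u (hu.trans ?_)⟩
  exact_mod_cast hR

theorem Many.mono {a : ℕ} {b : ℤ} {P : Finset ℤ} {l l' R R' C C' x : ℕ} (hl : l' ≤ l) (hR : R' ≤ R)
    (hC : C ≤ C') (hx : 3 ≤ x) (h : Many a b P l R C x) : Many a b P l' R' C' x := by
  obtain ⟨D, h1, h2, h3⟩ := h
  have h4 : (1 : ℝ) ≤ Real.log x := by
    rw [Real.le_log_iff_exp_le (by exact_mod_cast (by omega : 0 < x))]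
    have h5 := Real.exp_one_lt_d9
    have h6 : (3 : ℝ) ≤ x := by exact_mod_cast hx
    linarith
  have h5 : Real.log x ^ C ≤ Real.log x ^ C' := pow_le_pow_right₀ h4 hC
  have h6 : (0 : ℝ) < Real.log x ^ C := by positivity
  refine ⟨D, h1, h2.trans h5, ?_⟩
  refine le_trans (div_le_div_of_nonneg_left (Nat.cast_nonneg x) h6 h5) (h3.trans ?_)
  exact_mod_cast ce_mono hl hR

/-- exact patterns along narrow progressions of every length -/
def Ex (a : ℕ) (b : ℤ) (P : Finset ℤ) : Prop := ∀ l R : ℕ, ∃ C : ℕ, ∃ᶠ x : ℕ in atTop,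
    Many a b P l R C x

/-- the times of `Ps` relative to that of `z₀` -/
def PP {T K : ℕ} (M₀ : ℕ) (po : Fin T × Fin K → ℕ) (z₀ : Fin T × Fin K) (Ps : Finset (Fin T × Fin K)) :
    Finset ℤ := Ps.image (fun z => (M₀ : ℤ) * ((po z : ℤ) - po z₀))

open Classical in
/-- the coloured theorem, in the form which is used -/
def PatH (T M K : ℕ) : Prop := ∀ H : Fin T → Fin K → ℤ × ℤ,
    Function.Injective (fun x : Fin T × Fin K => H x.1 x.2) →
    (∀ g i, 0 < (H g i).1 ∧ IsCoprime (H g i).1 (H g i).2) →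
    (∀ p : ℕ, p.Prime → p ≤ T * K → ∃ r : ℤ, ∀ g i, ¬ (p : ℤ) ∣ (H g i).1 * r + (H g i).2) →
    ∀ U : Finset (ℤ × ℤ), (∀ u ∈ U, 0 < u.1 ∧ IsCoprime u.1 u.2 ∧ ∀ g i, u ≠ H g i) →
    ∀ l : ℕ, ∃ C : ℕ, ∀ᶠ N : ℕ in atTop, ∃ (S : Finset (Fin T)) (cc : Fin T → Fin K),
      M + 1 ≤ S.card ∧ ∃ D : ℕ, 1 ≤ D ∧ (D : ℝ) ≤ (Real.log N) ^ C ∧ (N : ℝ) / (Real.log N) ^ C ≤
        (((Icc (l + 1) N).filter (fun n : ℕ => ∀ j < l,
          (∀ g ∈ S, ((H g (cc g)).1 * ((n + j * D : ℕ) : ℤ) + (H g (cc g)).2).toNat.Prime) ∧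
          ∀ f ∈ U, ¬ (f.1 * ((n + j * D : ℕ) : ℤ) + f.2).toNat.Prime)).card : ℝ)

end Pool.Agent.Helper30K1.OT
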