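import Pool.Agent.Helper30K1.OT.Core

/-! Primes between the squares of the members of an exact cluster of primes. -/

set_option autoImplicit false

namespace Pool.Agent.Helper30K1.OT

open Finset Filter Topology
open Pool.Agent.N694.OB

open Classical in
/-- there are at most `C X ^ 0.62` integers `m ≤ X` with the property `Po` -/
def FewPoor (Po : ℕ → Prop) : Prop := ∃ C : ℝ, ∀ X : ℕ, 1 ≤ X →
  (((Icc 1 X).filter (fun m => Po m)).card : ℝ) ≤ C * (X : ℝ) ^ (0.62 : ℝ)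

theorem at_one {n : ℕ} {u : ℤ} : At 1 1 n u ↔ ((n : ℤ) + u).toNat.Prime := by
  have hva : ∀ (v : ℕ) (x : ℤ), va 1 1 v x = x + v := by
    intro v x
    unfold va geo
    simp
  unfold At
  simp only [hva]
  constructor
  · rintro (⟨h1, h2⟩ | ⟨h1, r, hr, h2⟩)
    · rwa [Int.toNat_of_nonneg h1] at h2
    · have h3 : (n : ℤ) + u = r := by omega
      rw [h3, Int.toNat_natCast]
      exact hr
  · intro h
    rcases le_or_gt 0 u with h1 | h1
    · left
      refine ⟨h1, ?_⟩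
      rw [Int.toNat_of_nonneg h1]
      exact h
    · right
      refine ⟨h1, ((n : ℤ) + u).toNat, h, ?_⟩
      have h2 : 0 < ((n : ℤ) + u).toNat := h.pos
      omega

/-- no number with the property `Po` within distance `R` of `n` -/
def Fine (Po : ℕ → Prop) (R n : ℕ) : Prop := ∀ m : ℕ, |(m : ℤ) - n| ≤ R → ¬ Po m

open Classical in
/-- the number of the `p ≤ x` such that for all `n = p + j D`, `j < l`, the primes in `[n - R, n + R]` are exactly
the `n + u`, `u ∈ P`, and there is no number with the property `c` in `[n - R, n + R]` -/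
noncomputable def cb (c : ℕ → Prop) (P : Finset ℤ) (l R D x : ℕ) : ℕ :=
  ((Icc 1 x).filter (fun p : ℕ => ∀ j < l, (∀ u : ℤ, |u| ≤ R →
    (((((p + j * D : ℕ) : ℤ) + u).toNat.Prime) ↔ u ∈ P)) ∧ Fine c R (p + j * D))).card

/-- many narrow progressions of length `l` up to `x` -/
def ManyB (c : ℕ → Prop) (P : Finset ℤ) (l R C x : ℕ) : Prop :=
    ∃ D : ℕ, 1 ≤ D ∧ (D : ℝ) ≤ Real.log x ^ C ∧ (x : ℝ) / Real.log x ^ C ≤ (cb c P l R D x : ℝ)

theorem manyB_of {c : ℕ → Prop} (hc : FewPoor c) (l R C : ℕ) : ∀ᶠ x : ℕ in atTop, ∀ P : Finset ℤ,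
    Many 1 1 P l R C x → ManyB c P l R (C + 1) x := by
  classical
  obtain ⟨C₀, hC₀⟩ := hc
  obtain ⟨C₁, hC₁, hC₁'⟩ : ∃ C₁ : ℝ, 0 ≤ C₁ ∧ C₀ ≤ C₁ := ⟨max C₀ 0, le_max_right _ _, le_max_left _ _⟩
  have hlog : Tendsto (fun N : ℕ => Real.log (N : ℝ)) atTop atTop :=
    Real.tendsto_log_atTop.comp tendsto_natCast_atTop_atTop
  -- `(log x)^C ≤ x^(1/4)` and so on
  have hpow : ∀ᶠ x : ℕ in atTop, (Real.log (x : ℝ)) ^ C *
      (2 * ((R : ℝ) + l * (2 * R + 1) * C₁ * 2)) ≤ (x : ℝ) ^ (0.38 : ℝ) := by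
    have h1 := (isLittleO_log_rpow_rpow_atTop (C : ℝ) (by norm_num : (0 : ℝ) < 0.38))
    have h2 := (h1.const_mul_left (2 * ((R : ℝ) + l * (2 * R + 1) * C₁ * 2))).bound
      (by norm_num : (0 : ℝ) < 1)
    have h3 := tendsto_natCast_atTop_atTop (R := ℝ) |>.eventually h2
    filter_upwards [h3, hlog.eventually_ge_atTop 0] with x h4 h5
    rw [Real.rpow_natCast, one_mul] at h4
    have h6 : (0 : ℝ) ≤ (x : ℝ) ^ (0.38 : ℝ) := by positivity
    rw [Real.norm_of_nonneg h6] at h4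
    have h7 := (le_abs_self _).trans h4
    linarith
  have hlD : ∀ᶠ x : ℕ in atTop, (l : ℝ) * (Real.log x) ^ C + R ≤ (x : ℝ) := by
    have h1 : Tendsto (fun N : ℕ => (Real.log (N : ℝ)) ^ C / (N : ℝ)) atTop (𝓝 0) := by
      have h2 := (Real.isLittleO_pow_log_id_atTop (n := C)).tendsto_div_nhds_zero
      exact h2.comp tendsto_natCast_atTop_atTop
    have h3 : Tendsto (fun N : ℕ => (2 * l : ℝ) * ((Real.log (N : ℝ)) ^ C / (N : ℝ)))
        atTop (𝓝 0) := by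
      simpa using h1.const_mul (2 * l : ℝ)
    filter_upwards [h3.eventually (gt_mem_nhds (by norm_num : (0 : ℝ) < 1)),
      eventually_gt_atTop 0, eventually_ge_atTop (2 * R)] with N h4 h5 h5'
    have h6 : (0 : ℝ) < N := by exact_mod_cast h5
    have h7 : (2 * l : ℝ) * (Real.log N) ^ C / N < 1 := by
      rw [mul_div_assoc]
      exact h4
    rw [div_lt_iff₀ h6] at h7
    have h8 : (2 * R : ℝ) ≤ N := by exact_mod_cast h5'
    linarith
  filter_upwards [hpow, hlD, hlog.eventually_ge_atTop 2, eventually_ge_atTop 3] with x h1 h2 h3 h4 P hP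
  obtain ⟨D, hD1, hD2, hD3⟩ := hP
  have hx0 : (0 : ℝ) < x := by exact_mod_cast (by omega : 0 < x)
  have hl0 : (0 : ℝ) < Real.log x := by linarith
  have hlC : (0 : ℝ) < Real.log x ^ C := by positivity
  refine ⟨D, hD1, hD2.trans (pow_le_pow_right₀ (by linarith) (by omega)), ?_⟩
  -- the bad ones
  obtain ⟨G, hG⟩ : ∃ G : Finset ℕ, G = (Icc 1 x).filter (fun p : ℕ => ∀ j < l, ∀ u : ℤ, |u| ≤ R →
    (At 1 1 (p + j * D) u ↔ u ∈ P)) := ⟨_, rfl⟩
  obtain ⟨Bd, hBd⟩ : ∃ Bd : Finset ℕ, Bd = (Icc 1 (2 * x)).filter (fun m => c m) := ⟨_, rfl⟩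
  obtain ⟨V, hV⟩ : ∃ V : Finset ℕ, V = (range l ×ˢ Icc (-(R : ℤ)) R).biUnion (fun w =>
    (Icc 1 x).filter (fun p : ℕ => ((p : ℤ) + w.1 * D + w.2).toNat ∈ Bd)) := ⟨_, rfl⟩
  have hlDR : l * D + R ≤ x := by
    have h5 : ((l * D + R : ℕ) : ℝ) ≤ x := by
      push_cast
      have h6 : (l : ℝ) * D ≤ l * Real.log x ^ C := mul_le_mul_of_nonneg_left hD2 (Nat.cast_nonneg _)
      linarith
    exact_mod_cast h5
  have hsub : G ⊆ ((Icc 1 x).filter (fun p : ℕ => ∀ j < l, (∀ u : ℤ, |u| ≤ R →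
    (((((p + j * D : ℕ) : ℤ) + u).toNat.Prime) ↔ u ∈ P)) ∧ Fine c R (p + j * D))) ∪ (Icc 1 R ∪ V) := by
    intro p hp
    rw [hG] at hp
    obtain ⟨g1, g2⟩ := mem_filter.1 hp
    rw [mem_union, mem_union]
    by_cases hpR : p ≤ R
    · exact Or.inr (Or.inl (mem_Icc.2 ⟨(mem_Icc.1 g1).1, hpR⟩))
    by_cases hpV : p ∈ V
    · exact Or.inr (Or.inr hpV)
    left
    refine mem_filter.2 ⟨g1, fun j hj => ⟨fun u hu => at_one.symm.trans (g2 j hj u hu), ?_⟩⟩
    intro m hm hpoor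
    apply hpV
    rw [hV, mem_biUnion]
    refine ⟨(j, (m : ℤ) - (p + j * D : ℕ)), mem_product.2 ⟨mem_range.2 hj, mem_Icc.2 (abs_le.1 hm)⟩,
      mem_filter.2 ⟨g1, ?_⟩⟩
    have e : (p : ℤ) + ((j : ℕ) : ℤ) * D + ((m : ℤ) - (p + j * D : ℕ)) = m := by
      push_cast
      ring
    show ((p : ℤ) + ((j : ℕ) : ℤ) * D + ((m : ℤ) - (p + j * D : ℕ))).toNat ∈ Bd
    rw [e, Int.toNat_natCast, hBd]
    obtain ⟨k1, k2⟩ := abs_le.1 hm
    have k3 := (mem_Icc.1 g1).2
    have k4 : j * D ≤ l * D := Nat.mul_le_mul_right _ hj.le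
    refine mem_filter.2 ⟨mem_Icc.2 ⟨?_, ?_⟩, hpoor⟩
    · by_contra hm0
      have : m = 0 := by omega
      subst this
      push_cast at k1
      have k5 : (0 : ℤ) ≤ j * D := by positivity
      have k6 : (R : ℤ) < p := by exact_mod_cast not_le.1 hpR
      push_cast at k1
      linarith
    · have k5 : (m : ℤ) ≤ ((p + j * D + R : ℕ) : ℤ) := by
        push_cast
        push_cast at k2
        linarith
      have k6 : m ≤ p + j * D + R := by exact_mod_cast k5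
      omega
  have hVc : V.card ≤ l * (2 * R + 1) * Bd.card := by
    rw [hV]
    refine card_biUnion_le.trans ?_
    have h5 : ∀ w ∈ range l ×ˢ Icc (-(R : ℤ)) R, ((Icc 1 x).filter
        (fun p : ℕ => ((p : ℤ) + w.1 * D + w.2).toNat ∈ Bd)).card ≤ Bd.card := by
      intro w _
      apply card_le_card_of_injOn (fun p : ℕ => ((p : ℤ) + w.1 * D + w.2).toNat)
      · intro p hp
        exact (mem_filter.1 (mem_coe.1 hp)).2
      · intro p hp p' hp' he
        have k1 := (mem_filter.1 (mem_coe.1 hp)).2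
        have k2 := (mem_filter.1 (mem_coe.1 hp')).2
        rw [hBd] at k1 k2
        have k3 := (mem_Icc.1 (mem_filter.1 k1).1).1
        have k4 := (mem_Icc.1 (mem_filter.1 k2).1).1
        have he' : ((p : ℤ) + w.1 * D + w.2).toNat = ((p' : ℤ) + w.1 * D + w.2).toNat := he
        omega
    refine (sum_le_sum h5).trans ?_
    rw [sum_const, smul_eq_mul, card_product, card_range, Int.card_Icc]
    apply Nat.mul_le_mul_right
    apply Nat.mul_le_mul_left
    omega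
  have hBdc : (Bd.card : ℝ) ≤ C₁ * (2 * (x : ℝ) ^ (0.62 : ℝ)) := by
    have h5 := hC₀ (2 * x) (by omega)
    rw [← hBd] at h5
    have h6 : ((2 * x : ℕ) : ℝ) ^ (0.62 : ℝ) ≤ 2 * (x : ℝ) ^ (0.62 : ℝ) := by
      push_cast
      rw [Real.mul_rpow (by norm_num) hx0.le]
      apply mul_le_mul_of_nonneg_right _ (by positivity)
      calc (2 : ℝ) ^ (0.62 : ℝ) ≤ 2 ^ (1 : ℝ) :=
            Real.rpow_le_rpow_of_exponent_le (by norm_num) (by norm_num)
        _ = 2 := by norm_num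
    calc (Bd.card : ℝ) ≤ C₀ * ((2 * x : ℕ) : ℝ) ^ (0.62 : ℝ) := h5
      _ ≤ C₁ * ((2 * x : ℕ) : ℝ) ^ (0.62 : ℝ) := mul_le_mul_of_nonneg_right hC₁' (by positivity)
      _ ≤ _ := mul_le_mul_of_nonneg_left h6 hC₁
  have hGc : (G.card : ℝ) ≤ (cb c P l R D x : ℝ) + (R + l * (2 * R + 1) * (C₁ * (2 * (x : ℝ) ^ (0.62 : ℝ)))) := by
    have h5 := (card_le_card hsub).trans (card_union_le _ _)
    have h6 : (Icc 1 R ∪ V).card ≤ R + V.card := by
      refine (card_union_le _ _).trans ?_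
      rw [Nat.card_Icc, Nat.add_sub_cancel]
    have h7 : G.card ≤ cb c P l R D x + (R + l * (2 * R + 1) * Bd.card) := by
      unfold cb
      omega
    have h8 : (G.card : ℝ) ≤ (cb c P l R D x : ℝ) + (R + l * (2 * R + 1) * Bd.card) := by
      exact_mod_cast h7
    refine h8.trans ?_
    have h9 : (0 : ℝ) ≤ l * (2 * R + 1) := by positivity
    have h10 := mul_le_mul_of_nonneg_left hBdc h9
    linarith
  have hGx : (x : ℝ) / Real.log x ^ C ≤ (G.card : ℝ) := by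
    rw [hG]
    exact hD3
  -- the error is at most half
  have herr : (R + l * (2 * R + 1) * (C₁ * (2 * (x : ℝ) ^ (0.62 : ℝ)))) ≤ (x : ℝ) / Real.log x ^ C / 2 := by
    rw [div_div, le_div_iff₀ (by positivity)]
    have h5 : (1 : ℝ) ≤ (x : ℝ) ^ (0.62 : ℝ) := by
      apply Real.one_le_rpow _ (by norm_num)
      exact_mod_cast (by omega : 1 ≤ x)
    have h6 : (R + l * (2 * R + 1) * (C₁ * (2 * (x : ℝ) ^ (0.62 : ℝ)))) ≤
        (R + l * (2 * R + 1) * C₁ * 2) * (x : ℝ) ^ (0.62 : ℝ) := by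
      have h7 : (R : ℝ) ≤ R * (x : ℝ) ^ (0.62 : ℝ) := le_mul_of_one_le_right (Nat.cast_nonneg _) h5
      nlinarith
    have h8 : (x : ℝ) = (x : ℝ) ^ (0.38 : ℝ) * (x : ℝ) ^ (0.62 : ℝ) := by
      rw [← Real.rpow_add hx0]
      norm_num
    have h9 : (0 : ℝ) ≤ Real.log x ^ C * 2 := by positivity
    have h10 : (0 : ℝ) ≤ (x : ℝ) ^ (0.62 : ℝ) := by positivity
    calc (R + l * (2 * R + 1) * (C₁ * (2 * (x : ℝ) ^ (0.62 : ℝ)))) * (Real.log x ^ C * 2) ≤
          ((R + l * (2 * R + 1) * C₁ * 2) * (x : ℝ) ^ (0.62 : ℝ)) * (Real.log x ^ C * 2) :=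
          mul_le_mul_of_nonneg_right h6 h9
      _ = (Real.log x ^ C * (2 * (R + l * (2 * R + 1) * C₁ * 2))) * (x : ℝ) ^ (0.62 : ℝ) := by ring
      _ ≤ (x : ℝ) ^ (0.38 : ℝ) * (x : ℝ) ^ (0.62 : ℝ) := mul_le_mul_of_nonneg_right h1 h10
      _ = x := h8.symm
  have hfin : (x : ℝ) / Real.log x ^ (C + 1) ≤ (x : ℝ) / Real.log x ^ C / 2 := by
    rw [pow_succ, ← div_div]
    exact div_le_div_of_nonneg_left (by positivity) (by norm_num) h3
  linarith

end Pool.Agent.Helper30K1.OT
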