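import Pool.Agent.Helper30K1.OT.Base

/-! Exact patterns of primes in orbits along narrow progressions which hit many classes of times. -/

set_option autoImplicit false

namespace Pool.Agent.Helper30K1.OT

open Finset Filter Topology
open Pool.Agent.N694.OB

open Classical in
/-- the pattern of the times of the configuration at `w` -/
noncomputable def pt {T K : ℕ} (a : ℕ) (b : ℤ) (τ : Fin T × Fin K → ℕ) (w : ℕ) :
    Finset (Fin T × Fin K) := univ.filter (fun z => (va a b (τ z) (w : ℤ)).toNat.Prime)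

/-- one starting value -/
theorem one_at {T K : ℕ} {a : ℕ} {b : ℤ} (ha : 1 ≤ a) {M₀ R' : ℕ} (hM₀ : 1 ≤ M₀)
    {po : Fin T × Fin K → ℕ} {τ : Fin T × Fin K → ℕ}
    (hτ : ∀ z, τ z = M₀ * (po z + R' + 1)) {s : ℕ} (z₀ : Fin T × Fin K) {R : ℕ} (hR : R ≤ R')
    (hs : τ z₀ + R ≤ s) {w p : ℕ} (hp : (p : ℤ) = va a b (τ z₀) w)
    (hU : ∀ v ≤ s, (∀ z, τ z ≠ v) → ¬ (va a b v w).toNat.Prime)
    (u : ℤ) (hu : |u| ≤ R) : At a b p u ↔ u ∈ PP M₀ po z₀ (pt a b τ w) := by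
  obtain ⟨hu1, hu2⟩ := abs_le.1 hu
  have hμR : R ≤ τ z₀ := by
    rw [hτ]
    have : po z₀ + R' + 1 ≤ M₀ * (po z₀ + R' + 1) := Nat.le_mul_of_pos_left _ (by omega)
    omega
  have h0 : 0 ≤ (τ z₀ : ℤ) + u := by
    have : (R : ℤ) ≤ τ z₀ := by exact_mod_cast hμR
    linarith
  rw [at_iff ha hp h0]
  obtain ⟨v, hv⟩ : ∃ v : ℕ, v = ((τ z₀ : ℤ) + u).toNat := ⟨_, rfl⟩
  have hv' : ((v : ℕ) : ℤ) = (τ z₀ : ℤ) + u := by rw [hv]; exact Int.toNat_of_nonneg h0
  rw [← hv]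
  have hvs : v ≤ s := by
    have h1 : ((v : ℕ) : ℤ) ≤ ((τ z₀ + R : ℕ) : ℤ) := by
      rw [hv']
      push_cast
      linarith
    have h2 : v ≤ τ z₀ + R := by exact_mod_cast h1
    omega
  have hdiff : ∀ z, ((M₀ : ℤ)) * ((po z : ℤ) - po z₀) = (τ z : ℤ) - τ z₀ := by
    intro z
    rw [hτ z, hτ z₀]
    push_cast
    ring
  have hmem : u ∈ PP M₀ po z₀ (pt a b τ w) ↔ ∃ z ∈ pt a b τ w, τ z = v := by
    unfold PP
    rw [mem_image]
    constructor
    · rintro ⟨z, hz, hzu⟩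
      refine ⟨z, hz, ?_⟩
      have hzu' : (M₀ : ℤ) * ((po z : ℤ) - po z₀) = u := hzu
      rw [hdiff] at hzu'
      have : ((τ z : ℕ) : ℤ) = ((v : ℕ) : ℤ) := by rw [hv']; linarith
      exact_mod_cast this
    · rintro ⟨z, hz, hzv⟩
      refine ⟨z, hz, ?_⟩
      show (M₀ : ℤ) * ((po z : ℤ) - po z₀) = u
      rw [hdiff, hzv, hv']
      ring
  rw [hmem]
  constructor
  · intro hpr
    by_contra hno
    push Not at hno
    by_cases hex : ∃ z, τ z = v
    · obtain ⟨z, hz⟩ := hex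
      refine hno z ?_ hz
      unfold pt
      rw [mem_filter]
      refine ⟨mem_univ _, ?_⟩
      rw [hz]
      exact hpr
    · push Not at hex
      exact hU v hvs hex hpr
  · rintro ⟨z, hz, hzv⟩
    unfold pt at hz
    have := (mem_filter.1 hz).2
    rw [hzv] at this
    exact this

/-- **Exact patterns which hit many classes, at every scale.** -/
theorem coreG {T M K : ℕ} (hpat : PatH T M K) {a : ℕ} {b : ℤ} (ha : 1 ≤ a)
    (hfo : Function.Injective (fo a b)) (hcop : ∀ v, IsCoprime (fo a b v).1 (fo a b v).2)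
    {M₀ : ℕ} (hM₀1 : 1 ≤ M₀) (po : Fin T × Fin K → ℕ) (hinj : Function.Injective po)
    (hadm : ∀ R p : ℕ, p.Prime → p ≤ T * K → ∃ n : ℤ, ∀ z, ¬ (p : ℤ) ∣
      (fo a b (M₀ * (po z + R + 1))).1 * n + (fo a b (M₀ * (po z + R + 1))).2) (l₀ R : ℕ) :
    ∃ C : ℕ, ∀ᶠ x : ℕ in atTop, ∃ Ps : Finset (Fin T × Fin K), M + 1 ≤ (Ps.image Prod.fst).card ∧
      ∀ z₀, Many a b (PP M₀ po z₀ Ps) l₀ R C x := by
  classical
  obtain ⟨l, hl⟩ : ∃ l, l = l₀ + 1 := ⟨_, rfl⟩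
  obtain ⟨W, hW1, hW⟩ := vdw (Finset (Fin T × Fin K)) l
  obtain ⟨τ, hτ⟩ : ∃ τ : Fin T × Fin K → ℕ, τ = fun z => M₀ * (po z + R + 1) := ⟨_, rfl⟩
  have hτ' : ∀ z, τ z = M₀ * (po z + R + 1) := fun z => by rw [hτ]
  have hτinj : Function.Injective τ := by
    intro z z' h
    rw [hτ' z, hτ' z'] at h
    have h1 := Nat.eq_of_mul_eq_mul_left (by omega : 0 < M₀) h
    exact hinj (by omega)
  obtain ⟨s, hs⟩ : ∃ s, s = (∑ z, τ z) + R := ⟨_, rfl⟩
  have hsle : ∀ z, τ z + R ≤ s := fun z => by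
    rw [hs]
    exact Nat.add_le_add_right (single_le_sum (f := τ) (fun _ _ => Nat.zero_le _) (mem_univ z)) R
  obtain ⟨B, hB⟩ : ∃ B, B = ∑ z, (b * geo a (τ z)).natAbs := ⟨_, rfl⟩
  have hBle : ∀ z, (b * geo a (τ z)).natAbs ≤ B := fun z => by
    rw [hB]
    exact single_le_sum (f := fun z => (b * geo a (τ z)).natAbs) (fun _ _ => Nat.zero_le _) (mem_univ z)
  obtain ⟨Pm, hPm⟩ : ∃ Pm, Pm = (∑ z, a ^ (τ z)) + 1 := ⟨_, rfl⟩
  have hPle : ∀ z, a ^ (τ z) ≤ Pm := fun z => by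
    rw [hPm]
    exact (single_le_sum (f := fun z => a ^ (τ z)) (fun _ _ => Nat.zero_le _) (mem_univ z)).trans
      (Nat.le_succ _)
  have hPm1 : 1 ≤ Pm := by rw [hPm]; exact Nat.le_add_left _ _
  obtain ⟨U, hU⟩ : ∃ U : Finset (ℤ × ℤ), U = ((range (s + 1)).filter (fun v => ∀ z, τ z ≠ v)).image
      (fo a b) := ⟨_, rfl⟩
  obtain ⟨C, hC⟩ := hpat (fun g i => fo a b (τ (g, i))) (by
    rintro ⟨g, i⟩ ⟨g', i'⟩ h
    exact hτinj (hfo h)) (fun g i => ⟨fo_pos1 ha _, hcop _⟩) (fun p hp hpK => by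
    obtain ⟨r, hr⟩ := hadm R p hp hpK
    refine ⟨r, fun g i => ?_⟩
    rw [hτ']
    exact hr (g, i)) U (fun u hu => by
    rw [hU] at hu
    obtain ⟨v, hv, rfl⟩ := mem_image.1 hu
    refine ⟨fo_pos1 ha _, hcop _, fun g i h => ?_⟩
    exact (mem_filter.1 hv).2 (g, i) (hfo h).symm) W
  -- the number of keys
  obtain ⟨keys, hkeys⟩ : ∃ keys : Finset (ℕ × ℕ × Finset (Fin T × Fin K)),
      keys = (range W) ×ˢ ((range (W + 1)) ×ˢ univ) := ⟨_, rfl⟩
  obtain ⟨Q, hQ⟩ : ∃ Q : ℕ, Q = keys.card := ⟨_, rfl⟩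
  have hlog : Tendsto (fun N : ℕ => Real.log (N : ℝ)) atTop atTop :=
    Real.tendsto_log_atTop.comp tendsto_natCast_atTop_atTop
  have hWN : ∀ᶠ N : ℕ in atTop, ((W + 2 * B + 1 : ℕ) : ℝ) * (Real.log N) ^ C ≤ (N : ℝ) := by
    have h1 : Tendsto (fun N : ℕ => (Real.log (N : ℝ)) ^ C / (N : ℝ)) atTop (𝓝 0) := by
      have h2 := (Real.isLittleO_pow_log_id_atTop (n := C)).tendsto_div_nhds_zero
      exact h2.comp tendsto_natCast_atTop_atTop
    have h3 : Tendsto (fun N : ℕ => ((W + 2 * B + 1 : ℕ) : ℝ) * ((Real.log (N : ℝ)) ^ C / (N : ℝ)))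
        atTop (𝓝 0) := by
      simpa using h1.const_mul ((W + 2 * B + 1 : ℕ) : ℝ)
    filter_upwards [h3.eventually (gt_mem_nhds (by norm_num : (0 : ℝ) < 1)),
      eventually_gt_atTop 0] with N h4 h5
    have h6 : (0 : ℝ) < N := by exact_mod_cast h5
    have h7 : ((W + 2 * B + 1 : ℕ) : ℝ) * (Real.log N) ^ C / N < 1 := by
      rw [mul_div_assoc]
      exact h4
    rw [div_lt_iff₀ h6] at h7
    linarith
  -- the scale
  have htend : Tendsto (fun x : ℕ => (x - B) / (2 * Pm)) atTop atTop := by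
    rw [tendsto_atTop_atTop]
    intro n
    refine ⟨n * (2 * Pm) + B, fun x hx => ?_⟩
    rw [Nat.le_div_iff_mul_le (by omega)]
    omega
  refine ⟨C + 2, ?_⟩
  filter_upwards [htend.eventually (hC.and (hWN.and ((eventually_ge_atTop 3).and
    (hlog.eventually_ge_atTop ((Pm * W + Q + 2 * (4 * Pm + B) * (Q + 1) + 1 : ℕ) : ℝ)))))] with x hx
  obtain ⟨N, hN⟩ : ∃ N, N = (x - B) / (2 * Pm) := ⟨_, rfl⟩
  rw [← hN] at hx
  obtain ⟨hN1, hN3, hN4, hN5⟩ := hx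
  obtain ⟨S, cc, hS, D, hD1, hD2, hD3⟩ := hN1
  have hxu : 2 * Pm * N + B ≤ x := by
    have h1 : N * (2 * Pm) ≤ x - B := by rw [hN]; exact Nat.div_mul_le_self _ _
    have h2 : 0 < N * (2 * Pm) := Nat.mul_pos (by omega) (by omega)
    have h3 : 2 * Pm * N = N * (2 * Pm) := Nat.mul_comm _ _
    omega
  have hxl : x ≤ (4 * Pm + B) * N := by
    have h1 : x - B < 2 * Pm * (N + 1) := by
      rw [hN]
      exact Nat.lt_mul_div_succ _ (by omega)
    have h2 : x < 2 * Pm * (N + 1) + B := by omega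
    nlinarith
  obtain ⟨A, hA⟩ : ∃ A, A = 4 * Pm + B := ⟨_, rfl⟩
  rw [← hA] at hxl hN5
  obtain ⟨X, hX⟩ : ∃ X : Finset ℕ, X = (Icc (W + 1) N).filter (fun n : ℕ => ∀ j < W,
      (∀ g ∈ S, ((fo a b (τ (g, cc g))).1 * ((n + j * D : ℕ) : ℤ) +
        (fo a b (τ (g, cc g))).2).toNat.Prime) ∧
      ∀ f ∈ U, ¬ (f.1 * ((n + j * D : ℕ) : ℤ) + f.2).toNat.Prime) := ⟨_, rfl⟩
  have hXc : (N : ℝ) / (Real.log N) ^ C ≤ (X.card : ℝ) := by rw [hX]; exact hD3
  obtain ⟨X', hX'⟩ : ∃ X' : Finset ℕ, X' = X.filter (fun n => B < n) := ⟨_, rfl⟩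
  have hX'c : (N : ℝ) / (Real.log N) ^ C - B ≤ (X'.card : ℝ) := by
    have h1 : X ⊆ (Icc 1 B) ∪ X' := by
      intro n hn
      rw [mem_union]
      by_cases h2 : B < n
      · right
        rw [hX']
        exact mem_filter.2 ⟨hn, h2⟩
      · left
        rw [hX] at hn
        have h3 := (mem_Icc.1 (mem_filter.1 hn).1).1
        exact mem_Icc.2 ⟨by omega, by omega⟩
    have h2 := (card_le_card h1).trans (card_union_le _ _)
    rw [Nat.card_Icc, Nat.add_sub_cancel] at h2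
    have h3 : (X.card : ℝ) ≤ B + X'.card := by exact_mod_cast h2
    linarith
  -- the keys
  choose jf ef hje using fun n : ℕ => hW (fun j => pt a b τ (n + j * D))
  obtain ⟨kf, hkf⟩ : ∃ kf : ℕ → ℕ × ℕ × Finset (Fin T × Fin K),
      kf = fun n => (jf n, ef n, pt a b τ (n + jf n * D)) := ⟨_, rfl⟩
  have hQ1 : 1 ≤ Q := by
    rw [hQ, hkeys]
    exact card_pos.2 ⟨(0, 0, ∅), mem_product.2 ⟨mem_range.2 (by
      show 0 < W
      omega), mem_product.2 ⟨mem_range.2 (Nat.succ_pos W), mem_univ _⟩⟩⟩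
  have hQR : (1 : ℝ) ≤ Q := by exact_mod_cast hQ1
  obtain ⟨κ, hκ1, hκ2⟩ := exists_le_card_fiber_of_nsmul_le_card_of_maps_to (s := X') (t := keys)
    (f := kf) (b := (X'.card : ℝ) / Q) (fun n _ => by
      obtain ⟨h1, -, h2, -⟩ := hje n
      rw [hkf, hkeys]
      exact mem_product.2 ⟨mem_range.2 h1, mem_product.2 ⟨mem_range.2 (by
        show ef n < W + 1
        omega), mem_univ _⟩⟩) (by
      rw [← card_pos, ← hQ]
      exact hQ1) (by
      rw [← hQ, nsmul_eq_mul, mul_div_cancel₀]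
      exact (by linarith : (Q : ℝ) ≠ 0))
  obtain ⟨j₀, e, Ps⟩ := κ
  obtain ⟨Y, hY⟩ : ∃ Y : Finset ℕ, Y = X'.filter (fun n => kf n = (j₀, e, Ps)) := ⟨_, rfl⟩
  rw [← hY] at hκ2
  have hfib : ∀ n ∈ Y, n ∈ X ∧ B < n ∧ j₀ < W ∧ 1 ≤ e ∧ e ≤ W ∧ pt a b τ (n + j₀ * D) = Ps ∧
      ∀ i < l, j₀ + i * e < W ∧ pt a b τ (n + (j₀ + i * e) * D) = Ps := by
    intro n hn
    rw [hY] at hn
    obtain ⟨h1, h2⟩ := mem_filter.1 hn
    rw [hX'] at h1
    obtain ⟨h3, h4⟩ := mem_filter.1 h1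
    rw [hkf] at h2
    have h5 : jf n = j₀ := congrArg Prod.fst h2
    have h6 : ef n = e := congrArg (fun y => y.2.1) h2
    have h7 : pt a b τ (n + jf n * D) = Ps := congrArg (fun y => y.2.2) h2
    obtain ⟨g1, g2, g3, g4⟩ := hje n
    rw [h5] at g1 g4 h7
    rw [h6] at g2 g3 g4
    refine ⟨h3, h4, g1, g2, g3, h7, fun i hi => ⟨(g4 i hi).1, ?_⟩⟩
    have h8 := (g4 i hi).2
    exact h8.trans h7
  -- sizes
  have hlN' : ((Pm * W : ℕ) : ℝ) + Q + 2 * A * (Q + 1) + 1 ≤ Real.log N := by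
    refine le_trans (le_of_eq ?_) hN5
    push_cast
    ring
  have hPW0 : (0 : ℝ) ≤ ((Pm * W : ℕ) : ℝ) := Nat.cast_nonneg _
  have hA0 : (0 : ℝ) ≤ A := Nat.cast_nonneg _
  have hAQ0 : (0 : ℝ) ≤ 2 * A * (Q + 1) := by positivity
  have hlN : (1 : ℝ) ≤ Real.log N := by linarith
  have hlN0 : (0 : ℝ) < Real.log N := by linarith
  have hlC : (0 : ℝ) < Real.log N ^ C := by positivity
  have hBN : (B : ℝ) ≤ N / Real.log N ^ C / 2 := by
    rw [le_div_iff₀ (by norm_num : (0 : ℝ) < 2), le_div_iff₀ hlC]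
    refine le_trans ?_ hN3
    apply mul_le_mul_of_nonneg_right _ hlC.le
    push_cast
    have : (0 : ℝ) ≤ W := Nat.cast_nonneg _
    linarith
  have hN0 : (0 : ℝ) < N := by exact_mod_cast (by omega : 0 < N)
  have hX'2 : (N : ℝ) / Real.log N ^ C / 2 ≤ X'.card := by linarith
  have hXpos : (0 : ℝ) < (X'.card : ℝ) := lt_of_lt_of_le (by positivity) hX'2
  have hYpos : 0 < Y.card := by
    have h1 : (0 : ℝ) < (Y.card : ℝ) := lt_of_lt_of_le (by positivity) hκ2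
    exact_mod_cast h1
  obtain ⟨n₁, hn₁⟩ := card_pos.1 hYpos
  obtain ⟨gX, -, gj, he1, heW, gp, -⟩ := hfib n₁ hn₁
  have hPs : M + 1 ≤ (Ps.image Prod.fst).card := by
    refine hS.trans (card_le_card fun g hg => ?_)
    refine mem_image.2 ⟨(g, cc g), ?_, rfl⟩
    rw [← gp]
    unfold pt
    rw [mem_filter]
    refine ⟨mem_univ _, ?_⟩
    rw [hX] at gX
    exact ((mem_filter.1 gX).2 j₀ gj).1 g hg
  refine ⟨Ps, hPs, fun z₀ => ?_⟩
  obtain ⟨μ, hμ⟩ : ∃ μ, μ = τ z₀ := ⟨_, rfl⟩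
  obtain ⟨P, hP⟩ : ∃ P, P = a ^ μ := ⟨_, rfl⟩
  have hPPm : P ≤ Pm := by
    rw [hP, hμ]
    exact hPle z₀
  obtain ⟨g, hg⟩ : ∃ g, g = b * geo a μ := ⟨_, rfl⟩
  have hgB : -(B : ℤ) ≤ g ∧ g ≤ B := by
    have h1 := hBle z₀
    rw [← hμ, ← hg] at h1
    omega
  have hP1 : 1 ≤ P := by rw [hP]; exact Nat.one_le_pow _ _ (by omega)
  have hxP : 2 * P * N + B ≤ x := by
    refine le_trans ?_ hxu
    have : P * N ≤ Pm * N := Nat.mul_le_mul_right _ hPPm
    nlinarith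
  have hNx : N ≤ x := by nlinarith
  have hlx : Real.log N ≤ Real.log x := Real.log_le_log hN0 (by exact_mod_cast hNx)
  have hlx1 : (1 : ℝ) ≤ Real.log x := hlN.trans hlx
  have hlx0 : (0 : ℝ) < Real.log x := by linarith
  have hWD : W * D ≤ N := by
    have h1 : ((W * D : ℕ) : ℝ) ≤ N := by
      refine le_trans ?_ hN3
      push_cast
      have h2 : (0 : ℝ) ≤ W := Nat.cast_nonneg _
      have h3 : (0 : ℝ) ≤ B := Nat.cast_nonneg _
      calc (W : ℝ) * D ≤ W * Real.log N ^ C := mul_le_mul_of_nonneg_left hD2 h2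
        _ ≤ (W + 2 * B + 1) * Real.log N ^ C := mul_le_mul_of_nonneg_right (by linarith) hlC.le
    exact_mod_cast h1
  refine ⟨P * (e * D), Nat.mul_pos (by omega) (Nat.mul_pos (by omega) (by omega)), ?_, ?_⟩
  · have h1 : ((P * (e * D) : ℕ) : ℝ) ≤ ((Pm * W : ℕ) : ℝ) * D := by
      have : P * (e * D) ≤ Pm * W * D := by
        rw [mul_assoc]
        exact Nat.mul_le_mul hPPm (Nat.mul_le_mul_right _ heW)
      exact_mod_cast this
    refine h1.trans ?_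
    calc ((Pm * W : ℕ) : ℝ) * D ≤ Real.log N * Real.log N ^ C :=
          mul_le_mul (by linarith) hD2 (Nat.cast_nonneg _) hlN0.le
      _ = Real.log N ^ (C + 1) := by ring
      _ ≤ Real.log x ^ (C + 1) := pow_le_pow_left₀ hlN0.le hlx _
      _ ≤ Real.log x ^ (C + 2) := pow_le_pow_right₀ hlx1 (by omega)
  · have hcard : Y.card ≤ ce a b (PP M₀ po z₀ Ps) l₀ R (P * (e * D)) x := by
      unfold ce
      have hpos : ∀ n : ℕ, B < n → ∀ n' : ℕ, n ≤ n' → 1 ≤ (P : ℤ) * n' + g := by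
        intro n hn n' hn'
        have hPn : (n' : ℤ) ≤ (P : ℤ) * n' := by
          have : n' ≤ P * n' := by nlinarith
          exact_mod_cast this
        have h1 : (B : ℤ) + 1 ≤ n' := by exact_mod_cast (by omega : B + 1 ≤ n')
        linarith [hgB.1]
      apply card_le_card_of_injOn (fun n : ℕ => ((P : ℤ) * ((n + j₀ * D : ℕ) : ℤ) + g).toNat)
      · intro n hn
        obtain ⟨g1, g2, g3, -, -, -, g6⟩ := hfib n (mem_coe.1 hn)
        have hp1 := hpos n g2 (n + j₀ * D) (Nat.le_add_right _ _)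
        have hcast : ((((P : ℤ) * ((n + j₀ * D : ℕ) : ℤ) + g).toNat : ℕ) : ℤ) =
            (P : ℤ) * ((n + j₀ * D : ℕ) : ℤ) + g := Int.toNat_of_nonneg (by omega)
        rw [hX] at g1
        obtain ⟨g7, g8⟩ := mem_filter.1 g1
        have hnN := (mem_Icc.1 g7).2
        rw [mem_coe, mem_filter, mem_Icc]
        refine ⟨⟨by
          show 1 ≤ ((P : ℤ) * ((n + j₀ * D : ℕ) : ℤ) + g).toNat
          omega, ?_⟩, fun j hj u hu => ?_⟩
        · show ((P : ℤ) * ((n + j₀ * D : ℕ) : ℤ) + g).toNat ≤ x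
          have h1 : n + j₀ * D ≤ 2 * N := by
            have : j₀ * D ≤ W * D := Nat.mul_le_mul_right _ g3.le
            omega
          have h2 : (P : ℤ) * ((n + j₀ * D : ℕ) : ℤ) ≤ P * ((2 * N : ℕ) : ℤ) :=
            mul_le_mul_of_nonneg_left (by exact_mod_cast h1) (Int.natCast_nonneg _)
          have h3 : (P : ℤ) * ((n + j₀ * D : ℕ) : ℤ) + g ≤ ((x : ℕ) : ℤ) := by
            have h4 : ((2 * P * N + B : ℕ) : ℤ) ≤ x := by exact_mod_cast hxP
            push_cast at h4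
            push_cast at h2
            push_cast
            linarith [hgB.2]
          omega
        · have hj' : j < l := by omega
          obtain ⟨h1, h2⟩ := g6 j hj'
          have hm : ((((((P : ℤ) * ((n + j₀ * D : ℕ) : ℤ) + g).toNat + j * (P * (e * D)) : ℕ)) : ℕ) : ℤ) =
              va a b (τ z₀) ((n + (j₀ + j * e) * D : ℕ) : ℤ) := by
            rw [Nat.cast_add, hcast, hg, hP, ← hμ]
            unfold va
            push_cast
            ring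
          have h3 := one_at ha hM₀1 hτ' (s := s) z₀ le_rfl (hsle z₀) hm (by
              intro v hv hvE
              have h4 := (g8 (j₀ + j * e) h1).2 (fo a b v) (by
                rw [hU]
                exact mem_image.2 ⟨v, mem_filter.2 ⟨mem_range.2 (by omega), hvE⟩, rfl⟩)
              exact h4) u hu
          rw [h2] at h3
          exact h3
      · intro n hn n' hn' hnn
        have g1 := (hfib n (mem_coe.1 hn)).2.1
        have g2 := (hfib n' (mem_coe.1 hn')).2.1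
        have h6 : ((P : ℤ) * ((n + j₀ * D : ℕ) : ℤ) + g).toNat =
          ((P : ℤ) * ((n' + j₀ * D : ℕ) : ℤ) + g).toNat := hnn
        have h8 := hpos n g1 (n + j₀ * D) (Nat.le_add_right _ _)
        have h9 := hpos n' g2 (n' + j₀ * D) (Nat.le_add_right _ _)
        have h10 : (P : ℤ) * ((n + j₀ * D : ℕ) : ℤ) + g = (P : ℤ) * ((n' + j₀ * D : ℕ) : ℤ) + g := by
          omega
        have h11 : (P : ℤ) * ((n + j₀ * D : ℕ) : ℤ) = (P : ℤ) * ((n' + j₀ * D : ℕ) : ℤ) := by linarith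
        have h12 : P * (n + j₀ * D) = P * (n' + j₀ * D) := by exact_mod_cast h11
        have h13 := Nat.eq_of_mul_eq_mul_left (by omega : 0 < P) h12
        omega
    have h1 : (x : ℝ) / Real.log x ^ (C + 2) ≤ (X'.card : ℝ) / Q := by
      have h2 : (x : ℝ) ≤ A * N := by exact_mod_cast hxl
      have h3 : (x : ℝ) / Real.log x ^ (C + 2) ≤ A * N / Real.log N ^ (C + 2) :=
        div_le_div₀ (by positivity) h2 (by positivity) (pow_le_pow_left₀ hlN0.le hlx _)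
      refine h3.trans ?_
      have h4 : A * N / Real.log N ^ (C + 2) ≤ (N : ℝ) / Real.log N ^ C / 2 / Q := by
        rw [div_div, div_div, div_le_div_iff₀ (by positivity) (by positivity)]
        have h5 : 2 * A * (Q + 1) ≤ Real.log N := by linarith
        have h6 : 2 * A * Q ≤ Real.log N ^ 2 := by nlinarith
        have h7 : (0 : ℝ) ≤ N * Real.log N ^ C := by positivity
        calc (A : ℝ) * N * (Real.log N ^ C * (2 * Q)) = (2 * A * Q) * (N * Real.log N ^ C) := by ring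
          _ ≤ Real.log N ^ 2 * (N * Real.log N ^ C) := mul_le_mul_of_nonneg_right h6 h7
          _ = N * Real.log N ^ (C + 2) := by ring
      refine h4.trans ?_
      apply div_le_div_of_nonneg_right hX'2 (by linarith)
    exact h1.trans (hκ2.trans (by exact_mod_cast hcard))

/-- **Exact patterns which hit many classes.** -/
theorem core_of {T M K : ℕ} {a : ℕ} {b : ℤ} {M₀ : ℕ} (po : Fin T × Fin K → ℕ)
    (hall : ∀ l R : ℕ, ∃ C : ℕ, ∀ᶠ x : ℕ in atTop, ∃ Ps : Finset (Fin T × Fin K),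
      M + 1 ≤ (Ps.image Prod.fst).card ∧ ∀ z₀, Many a b (PP M₀ po z₀ Ps) l R C x) :
    ∃ Ps : Finset (Fin T × Fin K), M + 1 ≤ (Ps.image Prod.fst).card ∧
      ∀ z₀, Ex a b (PP M₀ po z₀ Ps) := by
  classical
  by_contra hcon
  push Not at hcon
  have hbad : ∀ Ps : Finset (Fin T × Fin K), ∃ w : ℕ × ℕ,
      M + 1 ≤ (Ps.image Prod.fst).card → ∃ z₀, ∀ C : ℕ, ∀ᶠ x : ℕ in atTop,
          ¬ Many a b (PP M₀ po z₀ Ps) w.1 w.2 C x := by
    intro Ps
    by_cases hPs : M + 1 ≤ (Ps.image Prod.fst).card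
    · obtain ⟨z₀, hz₀⟩ := hcon Ps hPs
      unfold Ex at hz₀
      push Not at hz₀
      obtain ⟨l, R, h⟩ := hz₀
      exact ⟨(l, R), fun _ => ⟨z₀, fun C => h C⟩⟩
    · exact ⟨(0, 0), fun h => absurd h hPs⟩
  choose wf hwf using hbad
  obtain ⟨C, hC⟩ := hall (∑ Ps, (wf Ps).1) (∑ Ps, (wf Ps).2)
  have hall' : ∀ᶠ x : ℕ in atTop, ∀ Ps : Finset (Fin T × Fin K), M + 1 ≤ (Ps.image Prod.fst).card →
      ∃ z₀, ¬ Many a b (PP M₀ po z₀ Ps) (wf Ps).1 (wf Ps).2 C x := by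
    rw [eventually_all]
    intro Ps
    by_cases hPs : M + 1 ≤ (Ps.image Prod.fst).card
    · obtain ⟨z₀, hz₀⟩ := hwf Ps hPs
      exact (hz₀ C).mono fun x hx _ => ⟨z₀, hx⟩
    · exact Eventually.of_forall fun x h => absurd h hPs
  obtain ⟨x, ⟨Ps, hPs, hx1⟩, hx2, hx3⟩ := (hC.and (hall'.and (eventually_ge_atTop 3))).exists
  obtain ⟨z₀, hz₀⟩ := hx2 Ps hPs
  exact hz₀ ((hx1 z₀).mono (single_le_sum (f := fun Ps => (wf Ps).1) (fun _ _ => Nat.zero_le _)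
    (mem_univ Ps)) (single_le_sum (f := fun Ps => (wf Ps).2) (fun _ _ => Nat.zero_le _)
    (mem_univ Ps)) le_rfl hx3)

/-- orbits -/
theorem coreE {T M K : ℕ} (hpat : PatH T M K) {a : ℕ} {b : ℤ} (ha : 2 ≤ a) (hab : IsCoprime (a : ℤ) b)
    {q : ℕ} (hq : 1 ≤ q) (po : Fin T × Fin K → ℕ) (hinj : Function.Injective po) (l₀ R : ℕ) :
    ∃ C : ℕ, ∀ᶠ x : ℕ in atTop, ∃ Ps : Finset (Fin T × Fin K), M + 1 ≤ (Ps.image Prod.fst).card ∧
      ∀ z₀, Many a b (PP ((a - 1) * q) po z₀ Ps) l₀ R C x := by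
  refine coreG hpat (by omega) (fun v w h => fo_inj ha h) (fo_cop hab)
    (Nat.mul_pos (by omega) hq) po hinj (fun R p hp _ => ?_) l₀ R
  obtain ⟨r, hr⟩ := fo_adm ha hab hp
  refine ⟨r, fun z => hr _ ?_⟩
  rw [mul_assoc]
  exact Dvd.intro _ rfl

/-- translates -/
theorem coreT {T M K : ℕ} (hpat : PatH T M K) {w : ℕ} (hw : 1 ≤ w) (po : Fin T × Fin K → ℕ)
    (hinj : Function.Injective po)
    (hadm : ∀ p : ℕ, p.Prime → p ≤ T * K → ∃ n : ℤ, ∀ z, ¬ (p : ℤ) ∣ n + w * po z) (l₀ R : ℕ) :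
    ∃ C : ℕ, ∀ᶠ x : ℕ in atTop, ∃ Ps : Finset (Fin T × Fin K), M + 1 ≤ (Ps.image Prod.fst).card ∧
      ∀ z₀, Many 1 1 (PP w po z₀ Ps) l₀ R C x := by
  have hg : ∀ v : ℕ, geo 1 v = v := by
    intro v
    unfold geo
    simp
  refine coreG hpat le_rfl (fun v v' h => ?_) (fun v => ?_) hw po hinj (fun R p hp hpK => ?_) l₀ R
  · have h1 : (1 : ℤ) * geo 1 v = 1 * geo 1 v' := (Prod.mk.inj h).2
    rw [hg, hg] at h1
    omega
  · unfold fo
    rw [Nat.cast_one, one_pow]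
    exact isCoprime_one_left
  · obtain ⟨n, hn⟩ := hadm p hp hpK
    refine ⟨n - w * (R + 1), fun z hd => hn z ?_⟩
    have e : (fo 1 1 (w * (po z + R + 1))).1 * (n - w * (R + 1)) + (fo 1 1 (w * (po z + R + 1))).2 =
        n + w * po z := by
      unfold fo
      show ((1 : ℕ) : ℤ) ^ (w * (po z + R + 1)) * (n - w * (R + 1)) + 1 * geo 1 (w * (po z + R + 1)) = _
      rw [hg]
      push_cast
      ring
    rw [← e]
    exact hd

theorem core {T M K : ℕ} (hpat : PatH T M K) {a : ℕ} {b : ℤ} (ha : 2 ≤ a) (hab : IsCoprime (a : ℤ) b)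
    {q : ℕ} (hq : 1 ≤ q) (po : Fin T × Fin K → ℕ) (hinj : Function.Injective po) :
    ∃ Ps : Finset (Fin T × Fin K), M + 1 ≤ (Ps.image Prod.fst).card ∧
      ∀ z₀, Ex a b (PP ((a - 1) * q) po z₀ Ps) :=
  core_of po (coreE hpat ha hab hq po hinj)

end Pool.Agent.Helper30K1.OT
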