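import Pool.Agent.Helper30K1.OT.Core
import Pool.Agent.N646.TT.Key2
import Pool.Agent.Y827.HN.Pat

/-! Exact patterns of primes along narrow progressions in the orbits of affine maps, for one third of all
times. -/

set_option autoImplicit false

namespace Pool.Agent.Helper30K1.OT

open Finset Filter Topology
open Pool.Agent.N646.TT (grp pos QP extQ config2 two_groups ext_tuple loc4)

theorem patH (T M : ℕ) (hT : 1 ≤ T) (hTM : (18 / 5 : ℝ) * M < T) : ∃ K : ℕ, 1 ≤ K ∧ PatH T M K := by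
  classical
  obtain ⟨K, hK, h⟩ := Pool.Agent.Y827.HN.patR T M hT hTM
  refine ⟨K, hK, fun H h1 h2 h3 U h4 l => ?_⟩
  obtain ⟨C, hC⟩ := h H h1 h2 h3 U h4 l
  refine ⟨C, hC.mono ?_⟩
  rintro N ⟨S, cc, hS, hP⟩
  obtain ⟨D, hD1, hD2, hD3⟩ := hP (S.image (fun g => H g (cc g))) (Subset.refl _)
  refine ⟨S, cc, hS, D, hD1, hD2, hD3.trans ?_⟩
  rw [Nat.cast_le]
  unfold Pool.Agent.Y827.HN.cntX
  apply card_le_card
  intro n hn
  rw [mem_filter] at hn ⊢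
  exact ⟨hn.1, fun j hj => ⟨fun g hg => (hn.2 j hj).1 _ (mem_image_of_mem _ hg),
    fun f hf => (hn.2 j hj).2 f (mem_union_right _ hf)⟩⟩

/-- two consecutive elements of different groups, and further elements of different classes -/
theorem select {k K : ℕ} (hK : 1 ≤ K) (po : Fin (4 * (k + 1)) × Fin K → ℕ)
    (Ps : Finset (Fin (4 * (k + 1)) × Fin K)) (hPs : k + 1 + 1 ≤ (Ps.image Prod.fst).card) :
    ∃ (g : Fin (k + 2) → Fin (4 * (k + 1))) (σ : Fin (4 * (k + 1)) → Fin K), Function.Injective g ∧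
      grp (g 0) < grp (g 1) ∧ (∀ i, (g i, σ (g i)) ∈ Ps) ∧
      ∀ z ∈ Ps, ¬ (po (g 0, σ (g 0)) < po z ∧ po z < po (g 1, σ (g 1))) := by
  classical
  obtain ⟨γ₀, hγ₀, γ₁, hγ₁, hlt⟩ := two_groups (Ps.image Prod.fst) hPs
  obtain ⟨y₀, hy₀, hy₀'⟩ := mem_image.1 hγ₀
  obtain ⟨y₁, hy₁, hy₁'⟩ := mem_image.1 hγ₁
  obtain ⟨z₀, hz₀, hz₀'⟩ := exists_max_image (Ps.filter (fun z => grp z.1 ≤ grp γ₀)) po
    ⟨y₀, mem_filter.2 ⟨hy₀, by rw [hy₀']⟩⟩
  obtain ⟨z₁, hz₁, hz₁'⟩ := exists_min_image (Ps.filter (fun z => grp γ₀ < grp z.1)) po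
    ⟨y₁, mem_filter.2 ⟨hy₁, by rw [hy₁']; exact hlt⟩⟩
  obtain ⟨h1, h2⟩ := mem_filter.1 hz₀
  obtain ⟨h3, h4⟩ := mem_filter.1 hz₁
  have h5 : grp z₀.1 < grp z₁.1 := lt_of_le_of_lt h2 h4
  have hne : z₀.1 ≠ z₁.1 := fun h => by
    rw [h] at h5
    exact lt_irrefl _ h5
  obtain ⟨g, hg1, hg2, hg3, hg4⟩ := ext_tuple k (Ps.image Prod.fst) hPs z₀.1 z₁.1
    (mem_image_of_mem _ h1) (mem_image_of_mem _ h3) hne
  obtain ⟨σ, hσ⟩ : ∃ σ : Fin (4 * (k + 1)) → Fin K, σ = fun c => if c = z₀.1 then z₀.2 else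
    if c = z₁.1 then z₁.2 else if h : ∃ i, (c, i) ∈ Ps then h.choose else ⟨0, hK⟩ := ⟨_, rfl⟩
  have hσ0 : σ z₀.1 = z₀.2 := by rw [hσ]; simp
  have hσ1 : σ z₁.1 = z₁.2 := by
    rw [hσ]
    simp only [hne.symm, if_false, if_true]
  have hmem : ∀ c ∈ Ps.image Prod.fst, (c, σ c) ∈ Ps := by
    intro c hc
    by_cases hc0 : c = z₀.1
    · rw [hc0, hσ0]
      exact h1
    by_cases hc1 : c = z₁.1
    · rw [hc1, hσ1]
      exact h3
    obtain ⟨y, hy, hyc⟩ := mem_image.1 hc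
    have hex : ∃ i, (c, i) ∈ Ps := ⟨y.2, by rw [← hyc]; exact hy⟩
    have e : σ c = hex.choose := by
      rw [hσ]
      simp only [hc0, hc1, if_false, hex, dif_pos]
    rw [e]
    exact hex.choose_spec
  refine ⟨g, σ, hg1, by rw [hg3, hg4]; exact h5, fun i => hmem _ (hg2 i), fun z hz hz' => ?_⟩
  rw [hg3, hg4, hσ0, hσ1] at hz'
  rcases le_or_gt (grp z.1) (grp γ₀) with h6 | h6
  · exact absurd (hz₀' z (mem_filter.2 ⟨hz, h6⟩)) (not_le.2 hz'.1)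
  · exact absurd (hz₁' z (mem_filter.2 ⟨hz, h6⟩)) (not_le.2 hz'.2)

/-- the shape of the pattern `P` for the times `0, d, t_1, ..., t_k`, all multiplied by `M₀` -/
def Shape {k : ℕ} (M₀ K₀ H d : ℕ) (t : Fin k → ℤ) (P : Finset ℤ) : Prop :=
  P.card ≤ K₀ ∧ (∀ u ∈ P, (M₀ : ℤ) ∣ u ∧ |u| ≤ M₀ * H) ∧ 0 ∈ P ∧ (M₀ : ℤ) * d ∈ P ∧
    (∀ i, (M₀ : ℤ) * t i ∈ P) ∧ ∀ u ∈ P, ¬ (0 < u ∧ u < (M₀ : ℤ) * d)

theorem grp_mk {m : ℕ} (γ : Fin 4) (j : Fin m) : grp (finProdFinEquiv (γ, j)) = γ := by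
  unfold grp
  rw [Equiv.symm_apply_apply]

theorem mem_extQ {k : ℕ} {Q : ℕ → (Fin k → ℤ) → Prop} {H d : ℕ} {t : Fin k → ℤ} :
    t ∈ extQ k Q H d ↔ t ∈ Fintype.piFinset (fun _ : Fin k => Icc (-(H : ℤ)) H) ∧
      Function.Injective t ∧ (∀ i, t i ≠ 0 ∧ t i ≠ d) ∧ Q d t := by
  classical
  unfold extQ
  exact mem_filter

/-- the configuration has diameter at most `H` -/
theorem diam {k K H : ℕ} (hK : 1 ≤ K) (po : Fin (4 * (k + 1)) × Fin K → ℕ)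
    (hcross : ∀ z z' : Fin (4 * (k + 1)) × Fin K, grp z.1 < grp z'.1 → po z < po z')
    (hH : ∀ z z' : Fin (4 * (k + 1)) × Fin K, grp z.1 < grp z'.1 → po z' - po z ≤ H)
    (z z' : Fin (4 * (k + 1)) × Fin K) : po z' ≤ po z + H := by
  rcases lt_trichotomy (grp z.1) (grp z'.1) with h | h | h
  · have := hH z z' h
    omega
  · by_cases h3 : grp z.1 < 3
    · obtain ⟨w, hw⟩ : ∃ w : Fin (4 * (k + 1)) × Fin K, grp w.1 = 3 :=
        ⟨(finProdFinEquiv (3, 0), ⟨0, hK⟩), grp_mk _ _⟩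
      have h1 : grp z.1 < grp w.1 := by rw [hw]; exact h3
      have h2 := hH z w h1
      have h4 := hcross z w h1
      have h5 := hcross z' w (by rw [← h]; exact h1)
      omega
    · obtain ⟨w, hw⟩ : ∃ w : Fin (4 * (k + 1)) × Fin K, grp w.1 = 0 :=
        ⟨(finProdFinEquiv (0, 0), ⟨0, hK⟩), grp_mk _ _⟩
      have h1 : grp w.1 < grp z.1 := by
        rw [hw]
        have h6 : (3 : Fin 4) ≤ grp z.1 := not_lt.1 h3
        exact lt_of_lt_of_le (by decide) h6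
      have h2 := hH w z' (by rw [← h]; exact h1)
      have h4 := hcross w z h1
      have h5 := hcross w z' (by rw [← h]; exact h1)
      omega
  · have := hcross z' z h
    omega

open Classical in
/-- from patterns which hit many classes to one third of all differences -/
theorem third_gen (k K : ℕ) (hK : 1 ≤ K) (ε : ℝ) (hε : 0 < ε) : ∃ c : ℝ, 0 < c ∧ ∃ L : ℕ, ∀ H : ℕ,
    L ≤ H → ∀ (M₀ : ℕ) (G : Finset ℤ → Prop),
    (∀ po : Fin (4 * (k + 1)) × Fin K → ℕ, Function.Injective po → (∀ z, po z ≤ H) →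
      (∀ b p : ℕ, p.Prime → p ≤ 4 * (k + 1) * K → ∃ n : ℤ, ∀ z, ¬ (p : ℤ) ∣ n + 2 * b * po z) →
      ∃ Ps : Finset (Fin (4 * (k + 1)) × Fin K), k + 1 + 1 ≤ (Ps.image Prod.fst).card ∧
        ∀ z₀, G (PP M₀ po z₀ Ps)) →
    (1 / 3 - ε) * (H : ℝ) ≤ (((Icc 1 H).filter (fun d : ℕ => c * (H : ℝ) ^ k ≤
      ((extQ k (fun d t => ∃ P : Finset ℤ, Shape M₀ (4 * (k + 1) * K) H d t P ∧ G P) H d).card :
        ℝ))).card : ℝ) := by
  obtain ⟨c, hc, L, hL⟩ := config2 k K hK ε hε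
  refine ⟨c, hc, L, fun H hH M₀ G hG => ?_⟩
  by_contra hcon
  obtain ⟨Qv, hQv⟩ : ∃ Qv : ℕ → (Fin k → ℤ) → Prop,
      Qv = fun d t => ∃ P : Finset ℤ, Shape M₀ (4 * (k + 1) * K) H d t P ∧ G P := ⟨_, rfl⟩
  rw [← hQv] at hcon
  have hcon' : ¬ (1 / 3 - ε) * (H : ℝ) ≤ (((Icc 1 H).filter (fun d : ℕ => c * (H : ℝ) ^ k ≤
      ((extQ k (fun d t => Qv d t ∨ H < d) H d).card : ℝ))).card : ℝ) := by
    intro h
    apply hcon
    refine h.trans ?_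
    rw [Nat.cast_le]
    apply card_le_card
    intro d hd
    obtain ⟨h1, h2⟩ := mem_filter.1 hd
    refine mem_filter.2 ⟨h1, h2.trans ?_⟩
    rw [Nat.cast_le]
    apply card_le_card
    intro t ht
    rw [mem_extQ] at ht ⊢
    obtain ⟨h3, h4, h5, h6⟩ := ht
    exact ⟨h3, h4, h5, h6.resolve_right (not_lt.2 (mem_Icc.1 h1).2)⟩
  obtain ⟨c₃, r, F, hr3, hinj, hcross, hno⟩ := hL H hH (fun d t => Qv d t ∨ H < d) (fun h => hcon' (by
    convert h))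
  obtain ⟨po, hpo⟩ : ∃ po : Fin (4 * (k + 1)) × Fin K → ℕ,
      po = pos (4 * (k + 1) * K).factorial r F := ⟨_, rfl⟩
  rw [← hpo] at hinj hcross
  have hpo' : ∀ z, po z = r (grp z.1) + (4 * (k + 1) * K).factorial * F z := fun z => by
    rw [hpo]
    rfl
  have hno' : ∀ (g : Fin (k + 2) → Fin (4 * (k + 1))) (σ : Fin (4 * (k + 1)) → Fin K),
      Function.Injective g → grp (g 0) < grp (g 1) →
      ¬ Qv (po (g 1, σ (g 1)) - po (g 0, σ (g 0)))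
        (fun i : Fin k => (po (g i.succ.succ, σ (g i.succ.succ)) : ℤ) - po (g 0, σ (g 0))) ∧
      po (g 1, σ (g 1)) - po (g 0, σ (g 0)) ≤ H := by
    intro g σ h1 h2
    have h3 := hno g σ h1 h2
    unfold QP at h3
    rw [← hpo] at h3
    have h4 := not_or.1 h3
    exact ⟨h4.1, not_lt.1 h4.2⟩
  have hHd : ∀ z z' : Fin (4 * (k + 1)) × Fin K, grp z.1 < grp z'.1 → po z' - po z ≤ H := by
    intro z z' h
    have hne : z.1 ≠ z'.1 := fun h' => by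
      rw [h'] at h
      exact lt_irrefl _ h
    obtain ⟨g, hg1, -, hg3, hg4⟩ := ext_tuple k (univ : Finset (Fin (4 * (k + 1)))) (by
      rw [card_univ, Fintype.card_fin]
      omega) z.1 z'.1 (mem_univ _) (mem_univ _) hne
    have h5 := (hno' g (fun c => if c = z.1 then z.2 else z'.2) hg1 (by rw [hg3, hg4]; exact h)).2
    rw [hg3, hg4, if_pos rfl, if_neg hne.symm] at h5
    exact h5
  have hdiam := diam hK po hcross hHd
  -- normalize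
  obtain ⟨zm, -, hzm⟩ := exists_min_image (univ : Finset (Fin (4 * (k + 1)) × Fin K)) po
    ⟨(⟨0, by omega⟩, ⟨0, hK⟩), mem_univ _⟩
  have hzm' : ∀ z, po zm ≤ po z := fun z => hzm z (mem_univ z)
  obtain ⟨p', hp'⟩ : ∃ p' : Fin (4 * (k + 1)) × Fin K → ℕ, p' = fun z => po z - po zm := ⟨_, rfl⟩
  have hp1 : ∀ z, po z = p' z + po zm := fun z => by
    have := hzm' z
    rw [hp']
    show po z = po z - po zm + po zm
    omega
  obtain ⟨Ps, hPs, hEx⟩ := hG p' (fun z z' h => hinj (by rw [hp1 z, hp1 z', h])) (fun z => by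
    have h1 := hdiam zm z
    have h2 := hp1 z
    omega) (fun b p hp hpK => by
    obtain ⟨n, hn⟩ := loc4 b c₃ r hr3 p hp
    refine ⟨n + 2 * b * po zm, fun z hd => hn (grp z.1) ?_⟩
    have hpM : (p : ℤ) ∣ ((4 * (k + 1) * K).factorial : ℤ) := by
      have : p ∣ (4 * (k + 1) * K).factorial := (hp.dvd_factorial).2 hpK
      exact_mod_cast this
    have h1 : n + 2 * (b : ℤ) * r (grp z.1) = (n + 2 * b * po zm + 2 * b * p' z) -
        ((4 * (k + 1) * K).factorial : ℤ) * (2 * b * F z) := by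
      have h2 : (po z : ℤ) = p' z + po zm := by
        rw [hp1 z]
        push_cast
        ring
      have h3 : (po z : ℤ) = r (grp z.1) + ((4 * (k + 1) * K).factorial : ℤ) * F z := by
        rw [hpo' z]
        push_cast
        ring
      have h4 : (p' z : ℤ) = po z - po zm := by linarith
      rw [h4, h3]
      ring
    rw [h1]
    exact dvd_sub hd (hpM.mul_right _))
  obtain ⟨g, σ, hg1, hg2, hg3, hg4⟩ := select hK p' Ps hPs
  obtain ⟨z₀, hz₀⟩ : ∃ z₀, z₀ = (g 0, σ (g 0)) := ⟨_, rfl⟩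
  obtain ⟨z₁, hz₁⟩ : ∃ z₁, z₁ = (g 1, σ (g 1)) := ⟨_, rfl⟩
  apply (hno' g σ hg1 hg2).1
  rw [hQv]
  have h01 := hcross (g 0, σ (g 0)) (g 1, σ (g 1)) hg2
  have hd : ((po (g 1, σ (g 1)) - po (g 0, σ (g 0)) : ℕ) : ℤ) =
      (p' (g 1, σ (g 1)) : ℤ) - p' (g 0, σ (g 0)) := by
    rw [Nat.cast_sub h01.le, hp1 (g 1, σ (g 1)), hp1 (g 0, σ (g 0))]
    push_cast
    ring
  refine ⟨PP M₀ p' (g 0, σ (g 0)) Ps, ⟨?_, ?_, ?_, ?_, ?_, ?_⟩, hEx _⟩
  · refine (card_image_le.trans (card_le_univ Ps)).trans (le_of_eq ?_)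
    rw [Fintype.card_prod, Fintype.card_fin, Fintype.card_fin]
  · intro u hu
    obtain ⟨z, -, rfl⟩ := mem_image.1 hu
    refine ⟨dvd_mul_right _ _, ?_⟩
    rw [abs_mul, Nat.abs_cast]
    apply mul_le_mul_of_nonneg_left _ (Int.natCast_nonneg _)
    have h1 := hdiam (g 0, σ (g 0)) z
    have h2 := hdiam z (g 0, σ (g 0))
    rw [hp1 z, hp1 (g 0, σ (g 0))] at h1 h2
    rw [abs_le]
    constructor <;> omega
  · refine mem_image.2 ⟨(g 0, σ (g 0)), hg3 0, ?_⟩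
    rw [sub_self, mul_zero]
  · refine mem_image.2 ⟨(g 1, σ (g 1)), hg3 1, ?_⟩
    rw [hd]
  · intro i
    refine mem_image.2 ⟨(g i.succ.succ, σ (g i.succ.succ)), hg3 _, ?_⟩
    show (M₀ : ℤ) * ((p' (g i.succ.succ, σ (g i.succ.succ)) : ℤ) - p' (g 0, σ (g 0))) =
      (M₀ : ℤ) * ((po (g i.succ.succ, σ (g i.succ.succ)) : ℤ) - po (g 0, σ (g 0)))
    rw [hp1 (g i.succ.succ, σ (g i.succ.succ)), hp1 (g 0, σ (g 0))]
    push_cast
    ring
  · rintro u hu ⟨h1, h2⟩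
    obtain ⟨z, hz, rfl⟩ := mem_image.1 hu
    rw [hd] at h2
    have h3 : (0 : ℤ) ≤ (M₀ : ℤ) := Int.natCast_nonneg _
    have h4 := pos_of_mul_pos_right h1 h3
    have h5 := lt_of_mul_lt_mul_left h2 h3
    refine hg4 z hz ⟨?_, ?_⟩ <;> omega

/-- uniformity in the configuration -/
theorem uni {T K M : ℕ} {a : ℕ} {b : ℤ} {M₀ H : ℕ} (Ad : (Fin T × Fin K → ℕ) → Prop) (l R : ℕ)
    (h : ∀ po : Fin T × Fin K → ℕ, Function.Injective po → Ad po → ∃ C : ℕ, ∀ᶠ x : ℕ in atTop,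
      ∃ Ps : Finset (Fin T × Fin K), M + 1 ≤ (Ps.image Prod.fst).card ∧
        ∀ z₀, Many a b (PP M₀ po z₀ Ps) l R C x) :
    ∃ C : ℕ, ∀ᶠ x : ℕ in atTop, ∀ po : Fin T × Fin K → ℕ, Function.Injective po → (∀ z, po z ≤ H) →
      Ad po → ∃ Ps : Finset (Fin T × Fin K), M + 1 ≤ (Ps.image Prod.fst).card ∧
        ∀ z₀, Many a b (PP M₀ po z₀ Ps) l R C x := by
  classical
  have h1 : ∀ f : Fin T × Fin K → Fin (H + 1), ∃ C : ℕ, ∀ᶠ x : ℕ in atTop,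
      (Function.Injective f ∧ Ad (fun z => (f z : ℕ))) → ∃ Ps : Finset (Fin T × Fin K),
        M + 1 ≤ (Ps.image Prod.fst).card ∧
        ∀ z₀, Many a b (PP M₀ (fun z => (f z : ℕ)) z₀ Ps) l R C x := by
    intro f
    by_cases hf : Function.Injective f ∧ Ad (fun z => (f z : ℕ))
    · obtain ⟨C, hC⟩ := h (fun z => (f z : ℕ)) (fun z z' h => hf.1 (Fin.ext h)) hf.2
      exact ⟨C, hC.mono fun x hx _ => hx⟩
    · exact ⟨0, Eventually.of_forall fun x h => absurd h hf⟩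
  choose Cf hCf using h1
  refine ⟨∑ f, Cf f, ?_⟩
  filter_upwards [eventually_all.2 hCf, eventually_ge_atTop 3] with x hx hx3 po hpo hpoH hAd
  obtain ⟨f, hf⟩ : ∃ f : Fin T × Fin K → Fin (H + 1),
    f = fun z => ⟨po z, Nat.lt_succ_of_le (hpoH z)⟩ := ⟨_, rfl⟩
  have h4 : (fun z => ((f z : Fin (H + 1)) : ℕ)) = po := by
    rw [hf]
  obtain ⟨Ps, hPs, h2⟩ := hx f ⟨fun z z' h => hpo (by
    rw [hf] at h
    exact congrArg Fin.val h), by rw [h4]; exact hAd⟩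
  refine ⟨Ps, hPs, fun z₀ => ?_⟩
  have h3 := h2 z₀
  rw [h4] at h3
  exact h3.mono le_rfl le_rfl (single_le_sum (f := Cf) (fun _ _ => Nat.zero_le _) (mem_univ f)) hx3

open Classical in
/-- **One third of all times.** -/
theorem third_orb (k : ℕ) : ∃ K₀ : ℕ, ∀ ε : ℝ, 0 < ε → ∃ c : ℝ, 0 < c ∧ ∃ L : ℕ, ∀ (a : ℕ) (b : ℤ),
    2 ≤ a → IsCoprime (a : ℤ) b → ∀ q : ℕ, 1 ≤ q → ∀ H : ℕ, L ≤ H →
      ((1 / 3 - ε) * (H : ℝ) ≤ (((Icc 1 H).filter (fun d : ℕ => c * (H : ℝ) ^ k ≤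
        ((extQ k (fun d t => ∃ P : Finset ℤ, Shape ((a - 1) * q) K₀ H d t P ∧ Ex a b P) H d).card :
          ℝ))).card : ℝ)) ∧
      ∀ l R : ℕ, ∃ C : ℕ, ∀ᶠ x : ℕ in atTop,
        (1 / 3 - ε) * (H : ℝ) ≤ (((Icc 1 H).filter (fun d : ℕ => c * (H : ℝ) ^ k ≤
          ((extQ k (fun d t => ∃ P : Finset ℤ, Shape ((a - 1) * q) K₀ H d t P ∧
            Many a b P l R C x) H d).card : ℝ))).card : ℝ) := by
  obtain ⟨K, hK, hpat⟩ := patH (4 * (k + 1)) (k + 1) (by omega) (by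
    push_cast
    have : (0 : ℝ) ≤ k := Nat.cast_nonneg _
    linarith)
  refine ⟨4 * (k + 1) * K, fun ε hε => ?_⟩
  obtain ⟨c, hc, L, hL⟩ := third_gen k K hK ε hε
  refine ⟨c, hc, L, fun a b ha hab q hq H hH => ⟨?_, fun l R => ?_⟩⟩
  · exact hL H hH ((a - 1) * q) (Ex a b) fun po hpo _ _ => core hpat ha hab hq po hpo
  · obtain ⟨C, hC⟩ := uni (H := H) (fun _ => True) l R
      (fun po hpo _ => coreE hpat ha hab hq po hpo l R)
    refine ⟨C, hC.mono fun x hx => ?_⟩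
    exact hL H hH ((a - 1) * q) (fun P => Many a b P l R C x) fun po hpo hpoH _ =>
      hx po hpo hpoH trivial

open Classical in
/-- **One third of all differences.** -/
theorem third_tra (k : ℕ) : ∃ K₀ : ℕ, ∀ ε : ℝ, 0 < ε → ∃ c : ℝ, 0 < c ∧ ∃ L : ℕ, ∀ b : ℕ, 1 ≤ b →
    ∀ H : ℕ, L ≤ H →
      ((1 / 3 - ε) * (H : ℝ) ≤ (((Icc 1 H).filter (fun d : ℕ => c * (H : ℝ) ^ k ≤
        ((extQ k (fun d t => ∃ P : Finset ℤ, Shape (2 * b) K₀ H d t P ∧ Ex 1 1 P) H d).card :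
          ℝ))).card : ℝ)) ∧
      ∀ l R : ℕ, ∃ C : ℕ, ∀ᶠ x : ℕ in atTop,
        (1 / 3 - ε) * (H : ℝ) ≤ (((Icc 1 H).filter (fun d : ℕ => c * (H : ℝ) ^ k ≤
          ((extQ k (fun d t => ∃ P : Finset ℤ, Shape (2 * b) K₀ H d t P ∧
            Many 1 1 P l R C x) H d).card : ℝ))).card : ℝ) := by
  obtain ⟨K, hK, hpat⟩ := patH (4 * (k + 1)) (k + 1) (by omega) (by
    push_cast
    have : (0 : ℝ) ≤ k := Nat.cast_nonneg _
    linarith)
  refine ⟨4 * (k + 1) * K, fun ε hε => ?_⟩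
  obtain ⟨c, hc, L, hL⟩ := third_gen k K hK ε hε
  refine ⟨c, hc, L, fun b hb H hH => ?_⟩
  have hb2 : 1 ≤ 2 * b := by omega
  have hcast : ∀ (n : ℤ) (m : ℕ), n + ((2 * b : ℕ) : ℤ) * m = n + 2 * b * m := by
    intro n m
    push_cast
    ring
  refine ⟨?_, fun l R => ?_⟩
  · exact hL H hH (2 * b) (Ex 1 1) fun po hpo _ hadm => core_of po (coreT hpat hb2 po hpo
      (fun p hp hpK => by
        obtain ⟨n, hn⟩ := hadm b p hp hpK
        exact ⟨n, fun z => by rw [hcast]; exact hn z⟩))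
  · obtain ⟨C, hC⟩ := uni (H := H) (fun po => ∀ p : ℕ, p.Prime → p ≤ 4 * (k + 1) * K →
      ∃ n : ℤ, ∀ z, ¬ (p : ℤ) ∣ n + 2 * b * po z) l R (fun po hpo hadm => coreT hpat hb2 po hpo
      (fun p hp hpK => by
        obtain ⟨n, hn⟩ := hadm p hp hpK
        exact ⟨n, fun z => by rw [hcast]; exact hn z⟩) l R)
    refine ⟨C, hC.mono fun x hx => ?_⟩
    exact hL H hH (2 * b) (fun P => Many 1 1 P l R C x) fun po hpo hpoH hadm =>
      hx po hpo hpoH (fun p hp hpK => hadm b p hp hpK)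

end Pool.Agent.Helper30K1.OT
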